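import Pool.Agent.W_4481e3_q42.RowsT
import Pool.Agent.W_4481e3_q87.LfF
import Pool.Agent.W_4481e3_tab.T1OK
import Pool.Agent.W_4481e3_tab.T2OK
import Pool.Agent.W_4481e3_tab.T3OK
import Pool.Agent.W_4481e3_tab.T4OK
import Pool.Agent.W_4481e3_tab.T5OK
import Pool.Agent.W_4481e3_tab.T6OK
import Pool.Agent.W_4481e3_tab.T7OK
import Pool.Agent.W_4481e3_tab.T8OK
import Pool.Agent.W_4481e3_tab.T9OK
import Pool.Agent.W_4481e3_rt.s11o1.s11o1
import Pool.Agent.W_4481e3_rt.s11o2.s11o2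
import Pool.Agent.W_4481e3_rt.s11o3.s11o3
import Pool.Agent.W_4481e3_rt.s11o4.s11o4
import Pool.Agent.W_4481e3_rt.s11o5.s11o5
import Pool.Agent.W_4481e3_rt.s11o6.s11o6
import Pool.Agent.W_4481e3_rt.s11o7.s11o7
import Pool.Agent.W_4481e3_rt.s11o8.s11o8
import Pool.Agent.W_4481e3_rt.s11o9.s11o9

/-!
Kill certificate for `L = 2`: the nine octaves on the square `(1572864, 1572864)`.
-/

namespace Pool.Agent.W_4481e3_rt

open Pool.Agent.W_4481e3_q25.EvR Pool.Agent.W_4481e3_q42.Glue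

theorem q11o1 : RootO 1572864 1572864 524288 9888 10832 536870912 32768 46366 65536 :=
  Pool.Agent.W_4481e3_rt.s11o1.root (leafOK Pool.Agent.W_4481e3_tab.T1.tabOK)

theorem q11o2 : RootO 1572864 1572864 524288 10848 12432 268435456 65536 92733 131072 :=
  Pool.Agent.W_4481e3_rt.s11o2.root (leafOK Pool.Agent.W_4481e3_tab.T2.tabOK)

theorem q11o3 : RootO 1572864 1572864 524288 15072 19280 268435456 131072 185139 262144 :=
  Pool.Agent.W_4481e3_rt.s11o3.root (leafOK Pool.Agent.W_4481e3_tab.T3.tabOK)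

theorem q11o4 : RootO 1572864 1572864 524288 24352 36160 134217728 262144 370278 524288 :=
  Pool.Agent.W_4481e3_rt.s11o4.root (leafOK Pool.Agent.W_4481e3_tab.T4.tabOK)

theorem q11o5 : RootO 1572864 1572864 524288 55520 88320 134217728 524288 742195 1048576 :=
  Pool.Agent.W_4481e3_rt.s11o5.root (leafOK Pool.Agent.W_4481e3_tab.T5.tabOK)

theorem q11o6 : RootO 1572864 1572864 524288 132160 222080 67108864 1048576 1482752 2097152 :=
  Pool.Agent.W_4481e3_rt.s11o6.root (leafOK Pool.Agent.W_4481e3_tab.T6.tabOK)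

theorem q11o7 : RootO 1572864 1572864 524288 353920 637120 33554432 2097152 2965504 4194304 :=
  Pool.Agent.W_4481e3_rt.s11o7.root (leafOK Pool.Agent.W_4481e3_tab.T7.tabOK)

theorem q11o8 : RootO 1572864 1572864 524288 1144800 2220640 16777216 4194304 5931008 8388608 :=
  Pool.Agent.W_4481e3_rt.s11o8.root (leafOK Pool.Agent.W_4481e3_tab.T8.tabOK)

theorem q11o9 : RootO 1572864 1572864 524288 4372160 6498560 16777216 8388608 11862016 14483456 :=
  Pool.Agent.W_4481e3_rt.s11o9.root (leafOK Pool.Agent.W_4481e3_tab.T9.tabOK)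

theorem q11 : Sq9 1572864 1572864 524288 :=
  ⟨q11o1, q11o2, q11o3, q11o4, q11o5, q11o6, q11o7, q11o8, q11o9⟩

end Pool.Agent.W_4481e3_rt
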