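import Pool.Agent.W_4481e3_q42.RowsT
import Pool.Agent.W_4481e3_q87.LfF
import Pool.Agent.W_4481e3_tab.T1OK
import Pool.Agent.W_4481e3_tab.T2OK
import Pool.Agent.W_4481e3_tab.T3OK
import Pool.Agent.W_4481e3_tab.T4OK
import Pool.Agent.W_4481e3_tab.T5OK
import Pool.Agent.W_4481e3_tab.T6OK
import Pool.Agent.W_4481e3_tab.T7OK
import Pool.Agent.W_4481e3_tab.T8OK
import Pool.Agent.W_4481e3_tab.T9OK
import Pool.Agent.W_4481e3_rt.s21o1.s21o1
import Pool.Agent.W_4481e3_rt.s21o2.s21o2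
import Pool.Agent.W_4481e3_rt.s21o3.s21o3
import Pool.Agent.W_4481e3_rt.s21o4.s21o4
import Pool.Agent.W_4481e3_rt.s21o5.s21o5
import Pool.Agent.W_4481e3_rt.s21o6.s21o6
import Pool.Agent.W_4481e3_rt.s21o7.s21o7
import Pool.Agent.W_4481e3_rt.s21o8.s21o8
import Pool.Agent.W_4481e3_rt.s21o9.s21o9

/-!
Kill certificate for `L = 2`: the nine octaves on the square `(2621440, 1572864)`.
-/

namespace Pool.Agent.W_4481e3_rt

open Pool.Agent.W_4481e3_q25.EvR Pool.Agent.W_4481e3_q42.Glue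

theorem q21o1 : RootO 2621440 1572864 524288 9888 10832 536870912 32768 46366 65536 :=
  Pool.Agent.W_4481e3_rt.s21o1.root (leafOK Pool.Agent.W_4481e3_tab.T1.tabOK)

theorem q21o2 : RootO 2621440 1572864 524288 10848 12432 268435456 65536 92733 131072 :=
  Pool.Agent.W_4481e3_rt.s21o2.root (leafOK Pool.Agent.W_4481e3_tab.T2.tabOK)

theorem q21o3 : RootO 2621440 1572864 524288 15072 19280 268435456 131072 185139 262144 :=
  Pool.Agent.W_4481e3_rt.s21o3.root (leafOK Pool.Agent.W_4481e3_tab.T3.tabOK)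

theorem q21o4 : RootO 2621440 1572864 524288 24352 36160 134217728 262144 370278 524288 :=
  Pool.Agent.W_4481e3_rt.s21o4.root (leafOK Pool.Agent.W_4481e3_tab.T4.tabOK)

theorem q21o5 : RootO 2621440 1572864 524288 55520 88320 134217728 524288 742195 1048576 :=
  Pool.Agent.W_4481e3_rt.s21o5.root (leafOK Pool.Agent.W_4481e3_tab.T5.tabOK)

theorem q21o6 : RootO 2621440 1572864 524288 132160 222080 67108864 1048576 1482752 2097152 :=
  Pool.Agent.W_4481e3_rt.s21o6.root (leafOK Pool.Agent.W_4481e3_tab.T6.tabOK)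

theorem q21o7 : RootO 2621440 1572864 524288 353920 637120 33554432 2097152 2965504 4194304 :=
  Pool.Agent.W_4481e3_rt.s21o7.root (leafOK Pool.Agent.W_4481e3_tab.T7.tabOK)

theorem q21o8 : RootO 2621440 1572864 524288 1144800 2220640 16777216 4194304 5931008 8388608 :=
  Pool.Agent.W_4481e3_rt.s21o8.root (leafOK Pool.Agent.W_4481e3_tab.T8.tabOK)

theorem q21o9 : RootO 2621440 1572864 524288 4372160 6498560 16777216 8388608 11862016 14483456 :=
  Pool.Agent.W_4481e3_rt.s21o9.root (leafOK Pool.Agent.W_4481e3_tab.T9.tabOK)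

theorem q21 : Sq9 2621440 1572864 524288 :=
  ⟨q21o1, q21o2, q21o3, q21o4, q21o5, q21o6, q21o7, q21o8, q21o9⟩

end Pool.Agent.W_4481e3_rt
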