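import Pool.Agent.W_4481e3_rt.Sq00
import Pool.Agent.W_4481e3_rt.Sq01
import Pool.Agent.W_4481e3_rt.Sq02
import Pool.Agent.W_4481e3_rt.Sq03
import Pool.Agent.W_4481e3_rt.Sq10
import Pool.Agent.W_4481e3_rt.Sq11
import Pool.Agent.W_4481e3_rt.Sq12
import Pool.Agent.W_4481e3_rt.Sq13
import Pool.Agent.W_4481e3_rt.Sq20
import Pool.Agent.W_4481e3_rt.Sq21
import Pool.Agent.W_4481e3_rt.Sq22
import Pool.Agent.W_4481e3_rt.Sq23
import Pool.Agent.W_4481e3_rt.Sq30
import Pool.Agent.W_4481e3_rt.Sq31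
import Pool.Agent.W_4481e3_rt.Sq32

/-!
Kill certificate for `L = 2`: all the squares.
-/

namespace Pool.Agent.W_4481e3_rt

open Pool.Agent.W_4481e3_q25.EvR Pool.Agent.W_4481e3_q42.Glue

/-- **the fifteen squares, all nine octaves** -/
theorem hsq : ∀ s ∈ sqs, Sq9 s.1 s.2.1 s.2.2 := by
  intro s h
  unfold sqs at h
  simp only [List.mem_cons, List.not_mem_nil, or_false] at h
  rcases h with rfl | rfl | rfl | rfl | rfl | rfl | rfl | rfl | rfl | rfl | rfl | rfl | rfl | rfl | rfl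
  · exact q00
  · exact q01
  · exact q02
  · exact q03
  · exact q10
  · exact q11
  · exact q12
  · exact q13
  · exact q20
  · exact q21
  · exact q22
  · exact q23
  · exact q30
  · exact q31
  · exact q32

end Pool.Agent.W_4481e3_rt
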